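import Pool.Agent.H.MP_c16527_co.B

set_option autoImplicit false

namespace Pool.Agent.Results.MP_c16527_co.EvenHole

open Pool.Agent.H.MP_c16527_co

theorem result : ∃ G : SimpleGraph (Fin 12),
    (∀ (m : ℕ) (f : Fin m → Fin 12), 4 ≤ m → Function.Injective f →
      (∀ i j : Fin m, G.Adj (f i) (f j) ↔
        (((i : ℕ) + 1) % m = (j : ℕ) ∨ ((j : ℕ) + 1) % m = (i : ℕ))) → Odd m) ∧
    ∃ B : Fin 3 ⊕ Fin 3 → Set (Fin 12), (∀ x, (G.induce (B x)).Connected) ∧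
      (∀ x y, x ≠ y → Disjoint (B x) (B y)) ∧
      (∀ x y, x ≠ y → ((∃ u ∈ B x, ∃ v ∈ B y, G.Adj u v) ↔
        (completeBipartiteGraph (Fin 3) (Fin 3)).Adj x y)) :=
  ⟨G12, rep12.evenHole even12, minor12⟩

end Pool.Agent.Results.MP_c16527_co.EvenHole
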